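import Pool.Agent.Y110.FJ.Stm

/-!
# Project FJ, (COL): `N ⋊ ℤ` as a directed colimit of HNN extensions (helper497)
-/

set_option autoImplicit false

namespace Pool.Agent.Y497.FJ

open Pool.Agent.Y462.SS (Closed)
open Pool.Agent.Y110.FJ

section

variable {G : Type} [Group G] (g : G)

/-- the subgroup generated by `E` and `g E g⁻¹` -/
abbrev KK (E : Set G) : Subgroup G := Subgroup.closure (E ∪ (fun x => g * x * g⁻¹) '' E)

abbrev AA (E : Set G) : Subgroup (KK g E) := (Subgroup.closure E).subgroupOf (KK g E)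

abbrev BB (E : Set G) : Subgroup (KK g E) :=
  (Subgroup.closure ((fun x => g * x * g⁻¹) '' E)).subgroupOf (KK g E)

theorem cl_le_KK (E : Set G) : Subgroup.closure E ≤ KK g E :=
  Subgroup.closure_mono Set.subset_union_left

theorem cl_le_KK' (E : Set G) : Subgroup.closure ((fun x => g * x * g⁻¹) '' E) ≤ KK g E :=
  Subgroup.closure_mono Set.subset_union_right

theorem conj_mem {E : Set G} {x : G} (hx : x ∈ Subgroup.closure E) :
    g * x * g⁻¹ ∈ Subgroup.closure ((fun x => g * x * g⁻¹) '' E) := by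
  induction hx using Subgroup.closure_induction with
  | mem x hx => exact Subgroup.subset_closure ⟨x, hx, rfl⟩
  | one =>
    rw [mul_one, mul_inv_cancel]
    exact one_mem _
  | mul x y _ _ hx hy =>
    have := mul_mem hx hy
    rwa [show g * x * g⁻¹ * (g * y * g⁻¹) = g * (x * y) * g⁻¹ by group] at this
  | inv x _ hx =>
    have := inv_mem hx
    rwa [show (g * x * g⁻¹)⁻¹ = g * x⁻¹ * g⁻¹ by group] at this

theorem conj_mem' {E : Set G} {y : G}
    (hy : y ∈ Subgroup.closure ((fun x => g * x * g⁻¹) '' E)) :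
    g⁻¹ * y * g ∈ Subgroup.closure E := by
  induction hy using Subgroup.closure_induction with
  | mem y hy =>
    obtain ⟨x, hx, rfl⟩ := hy
    rw [show g⁻¹ * (g * x * g⁻¹) * g = x by group]
    exact Subgroup.subset_closure hx
  | one =>
    rw [mul_one, inv_mul_cancel]
    exact one_mem _
  | mul x y _ _ hx hy =>
    have := mul_mem hx hy
    rwa [show g⁻¹ * x * g * (g⁻¹ * y * g) = g⁻¹ * (x * y) * g by group] at this
  | inv x _ hx =>
    have := inv_mem hx
    rwa [show (g⁻¹ * x * g)⁻¹ = g⁻¹ * x⁻¹ * g by group] at this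

/-- conjugation by `g` -/
def phi (E : Set G) : AA g E ≃* BB g E where
  toFun a := ⟨⟨g * ((a : KK g E) : G) * g⁻¹,
    cl_le_KK' g E (conj_mem g (Subgroup.mem_subgroupOf.1 a.2))⟩,
    Subgroup.mem_subgroupOf.2 (conj_mem g (Subgroup.mem_subgroupOf.1 a.2))⟩
  invFun b := ⟨⟨g⁻¹ * ((b : KK g E) : G) * g,
    cl_le_KK g E (conj_mem' g (Subgroup.mem_subgroupOf.1 b.2))⟩,
    Subgroup.mem_subgroupOf.2 (conj_mem' g (Subgroup.mem_subgroupOf.1 b.2))⟩
  left_inv a := by
    apply Subtype.ext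
    apply Subtype.ext
    change g⁻¹ * (g * ((a : KK g E) : G) * g⁻¹) * g = ((a : KK g E) : G)
    group
  right_inv a := by
    apply Subtype.ext
    apply Subtype.ext
    change g * (g⁻¹ * ((a : KK g E) : G) * g) * g⁻¹ = ((a : KK g E) : G)
    group
  map_mul' a b := by
    apply Subtype.ext
    apply Subtype.ext
    change g * (((a : KK g E) : G) * ((b : KK g E) : G)) * g⁻¹ =
      (g * ((a : KK g E) : G) * g⁻¹) * (g * ((b : KK g E) : G) * g⁻¹)
    group

theorem phi_val (E : Set G) (a : AA g E) :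
    ((phi g E a : KK g E) : G) = g * ((a : KK g E) : G) * g⁻¹ := rfl

/-- the HNN extension -/
abbrev GE (E : Set G) : Type := HNNExtension (KK g E) (AA g E) (BB g E) (phi g E)

/-- an element of the base -/
def oo (E : Set G) (x : G) (hx : x ∈ KK g E) : GE g E := HNNExtension.of ⟨x, hx⟩

/-- the stable letter -/
def tt (E : Set G) : GE g E := HNNExtension.t

theorem oo_congr {E : Set G} {x y : G} (h : x = y) (hx : x ∈ KK g E) :
    oo g E x hx = oo g E y (h ▸ hx) := by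
  subst h
  rfl

theorem oo_mul {E : Set G} {x y : G} (hx : x ∈ KK g E) (hy : y ∈ KK g E) :
    oo g E x hx * oo g E y hy = oo g E (x * y) (mul_mem hx hy) := by
  unfold oo
  rw [← map_mul]
  rfl

theorem oo_inv {E : Set G} {x : G} (hx : x ∈ KK g E) :
    (oo g E x hx)⁻¹ = oo g E x⁻¹ (inv_mem hx) := by
  unfold oo
  rw [← map_inv]
  rfl

theorem oo_one {E : Set G} (hx : (1 : G) ∈ KK g E) : oo g E 1 hx = 1 := by
  unfold oo
  exact map_one _

theorem tt_oo {E : Set G} {x : G} (hx : x ∈ Subgroup.closure E) :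
    tt g E * oo g E x (cl_le_KK g E hx) =
      oo g E (g * x * g⁻¹) (cl_le_KK' g E (conj_mem g hx)) * tt g E :=
  HNNExtension.t_mul_of (φ := phi g E)
    (⟨⟨x, cl_le_KK g E hx⟩, Subgroup.mem_subgroupOf.2 hx⟩ : AA g E)

theorem KK_mono {E E' : Set G} (h : E ⊆ E') : KK g E ≤ KK g E' :=
  Subgroup.closure_mono (Set.union_subset_union h (Set.image_mono h))

/-- the transition map -/
def tr {E E' : Set G} (h : E ⊆ E') : GE g E →* GE g E' :=
  HNNExtension.lift (HNNExtension.of.comp (Subgroup.inclusion (KK_mono g h))) (tt g E')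
    (fun a => by
      have h1 := Subgroup.closure_mono h (Subgroup.mem_subgroupOf.1 a.2)
      exact tt_oo g h1)

theorem tr_oo {E E' : Set G} (h : E ⊆ E') {x : G} (hx : x ∈ KK g E) :
    tr g h (oo g E x hx) = oo g E' x (KK_mono g h hx) :=
  HNNExtension.lift_of (φ := phi g E) _ _ _ (⟨x, hx⟩ : KK g E)

theorem tr_tt {E E' : Set G} (h : E ⊆ E') : tr g h (tt g E) = tt g E' :=
  HNNExtension.lift_t _ _ _

theorem hom_ext' {E : Set G} {M : Type} [Monoid M] {f f' : GE g E →* M}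
    (h1 : ∀ x hx, f (oo g E x hx) = f' (oo g E x hx)) (h2 : f (tt g E) = f' (tt g E)) (x : GE g E) :
    f x = f' x := by
  have : f = f' := by
    apply HNNExtension.hom_ext
    · ext y
      exact h1 y.1 y.2
    · exact h2
  rw [this]

theorem tr_self {E : Set G} (h : E ⊆ E) (x : GE g E) : tr g h x = x :=
  hom_ext' g (f := tr g h) (f' := MonoidHom.id _) (fun x hx => tr_oo g h hx) (tr_tt g h) x

theorem tr_tr {E E' E'' : Set G} (h : E ⊆ E') (h' : E' ⊆ E'') (x : GE g E) :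
    tr g h' (tr g h x) = tr g (h.trans h') x :=
  hom_ext' g (f := (tr g h').comp (tr g h)) (f' := tr g (h.trans h'))
    (fun x hx => by rw [MonoidHom.comp_apply, tr_oo, tr_oo, tr_oo])
    (by rw [MonoidHom.comp_apply, tr_tt, tr_tt, tr_tt]) x

theorem shift (N : Subgroup G) [N.Normal] (m : G) (hm : m ∈ N) (k : ℤ) :
    ∃ D : Set G, D.Finite ∧ D ⊆ N ∧ ∀ E : Set G, D ⊆ E → ∀ h0 : m ∈ KK g E,
      ∃ h1 : g ^ k * m * (g ^ k)⁻¹ ∈ KK g E,
        tt g E ^ k * oo g E m h0 = oo g E (g ^ k * m * (g ^ k)⁻¹) h1 * tt g E ^ k := by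
  have hN : ∀ k : ℤ, g ^ k * m * (g ^ k)⁻¹ ∈ N := fun k =>
    Subgroup.Normal.conj_mem inferInstance m hm (g ^ k)
  induction k using Int.induction_on with
  | zero =>
    refine ⟨∅, Set.finite_empty, Set.empty_subset _, fun E _ h0 => ?_⟩
    have h1 : m = g ^ (0 : ℤ) * m * (g ^ (0 : ℤ))⁻¹ := by simp
    refine ⟨h1 ▸ h0, ?_⟩
    rw [zpow_zero, one_mul, mul_one]
    exact oo_congr g h1 h0
  | succ k ih =>
    obtain ⟨D, hD1, hD2, hD3⟩ := ih
    refine ⟨D ∪ {g ^ (k : ℤ) * m * (g ^ (k : ℤ))⁻¹}, hD1.union (Set.finite_singleton _),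
      Set.union_subset hD2 (Set.singleton_subset_iff.2 (hN _)), fun E hE h0 => ?_⟩
    obtain ⟨h1, h2⟩ := hD3 E (Set.subset_union_left.trans hE) h0
    have h3 : g ^ (k : ℤ) * m * (g ^ (k : ℤ))⁻¹ ∈ Subgroup.closure E :=
      Subgroup.subset_closure (hE (Set.mem_union_right _ rfl))
    have h4 : g * (g ^ (k : ℤ) * m * (g ^ (k : ℤ))⁻¹) * g⁻¹ =
        g ^ ((k : ℤ) + 1) * m * (g ^ ((k : ℤ) + 1))⁻¹ := by
      rw [zpow_add_one]
      have h5 : g ^ (k : ℤ) * g = g * g ^ (k : ℤ) := (Commute.refl g).zpow_left k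
      rw [h5]
      group
    have h5 := tt_oo g h3
    rw [oo_congr g h4] at h5
    refine ⟨h4 ▸ (cl_le_KK' g E (conj_mem g h3)), ?_⟩
    rw [show tt g E ^ ((k : ℤ) + 1) = tt g E * tt g E ^ (k : ℤ) by
      rw [add_comm, zpow_add, zpow_one], mul_assoc, h2, ← mul_assoc, h5, mul_assoc]
  | pred k ih =>
    obtain ⟨D, hD1, hD2, hD3⟩ := ih
    refine ⟨D ∪ {g ^ (-(k : ℤ) - 1) * m * (g ^ (-(k : ℤ) - 1))⁻¹},
      hD1.union (Set.finite_singleton _),
      Set.union_subset hD2 (Set.singleton_subset_iff.2 (hN _)), fun E hE h0 => ?_⟩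
    obtain ⟨h1, h2⟩ := hD3 E (Set.subset_union_left.trans hE) h0
    have h3 : g ^ (-(k : ℤ) - 1) * m * (g ^ (-(k : ℤ) - 1))⁻¹ ∈ Subgroup.closure E :=
      Subgroup.subset_closure (hE (Set.mem_union_right _ rfl))
    have h4 : g * (g ^ (-(k : ℤ) - 1) * m * (g ^ (-(k : ℤ) - 1))⁻¹) * g⁻¹ =
        g ^ (-(k : ℤ)) * m * (g ^ (-(k : ℤ)))⁻¹ := by
      have h5 : g ^ (-(k : ℤ)) = g * g ^ (-(k : ℤ) - 1) := by
        rw [← zpow_one_add]
        congr 1
        ring
      rw [h5]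
      group
    have h5 := tt_oo g h3
    rw [oo_congr g h4] at h5
    refine ⟨cl_le_KK g E h3, ?_⟩
    rw [show tt g E ^ (-(k : ℤ) - 1) = (tt g E)⁻¹ * tt g E ^ (-(k : ℤ)) by
      rw [sub_eq_neg_add, zpow_add, zpow_neg_one], mul_assoc, h2, ← mul_assoc, ← mul_assoc]
    congr 1
    rw [inv_mul_eq_iff_eq_mul, ← mul_assoc, h5, mul_inv_cancel_right]

/-- elements which become `n t ^ k` -/
def QQ (N : Subgroup G) (E : Set G) (x : GE g E) : Prop :=
  ∃ (E' : Set G) (_ : E'.Finite) (_ : E' ⊆ N) (h : E ⊆ E') (n : G) (hn : n ∈ KK g E') (k : ℤ),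
    tr g h x = oo g E' n hn * tt g E' ^ k

theorem KK_le (N : Subgroup G) [N.Normal] {E : Set G} (hE : E ⊆ N) : KK g E ≤ N := by
  rw [Subgroup.closure_le]
  refine Set.union_subset hE ?_
  rintro _ ⟨x, hx, rfl⟩
  exact Subgroup.Normal.conj_mem inferInstance x (hE hx) g

theorem QQ_all (N : Subgroup G) [N.Normal] (E : Set G) (hEf : E.Finite) (hE : E ⊆ N) (x : GE g E) :
    QQ g N E x := by
  induction x using HNNExtension.induction_on with
  | of y =>
    refine ⟨E, hEf, hE, subset_rfl, y.1, y.2, 0, ?_⟩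
    rw [tr_self, zpow_zero, mul_one]
    rfl
  | t =>
    refine ⟨E, hEf, hE, subset_rfl, 1, one_mem _, 1, ?_⟩
    rw [tr_self, zpow_one, oo_one, one_mul]
    rfl
  | mul x y hx hy =>
    obtain ⟨E1, f1, s1, h1, n1, hn1, k1, e1⟩ := hx
    obtain ⟨E2, f2, s2, h2, n2, hn2, k2, e2⟩ := hy
    obtain ⟨D, hD1, hD2, hD3⟩ := shift g N n2 (KK_le g N s2 hn2) k1
    have i1 : E1 ⊆ E1 ∪ E2 ∪ D := Set.subset_union_left.trans Set.subset_union_left
    have i2 : E2 ⊆ E1 ∪ E2 ∪ D := Set.subset_union_right.trans Set.subset_union_left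
    obtain ⟨hm, h3⟩ := hD3 (E1 ∪ E2 ∪ D) Set.subset_union_right (KK_mono g i2 hn2)
    refine ⟨E1 ∪ E2 ∪ D, (f1.union f2).union hD1, Set.union_subset (Set.union_subset s1 s2) hD2,
      h1.trans i1, n1 * (g ^ k1 * n2 * (g ^ k1)⁻¹), mul_mem (KK_mono g i1 hn1) hm, k1 + k2, ?_⟩
    have e1' := congrArg (tr g i1) e1
    have e2' := congrArg (tr g i2) e2
    rw [tr_tr, map_mul, map_zpow, tr_oo, tr_tt] at e1' e2'
    rw [map_mul, e1', e2', ← oo_mul g (KK_mono g i1 hn1) hm, zpow_add]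
    rw [mul_assoc, ← mul_assoc (tt g _ ^ k1), h3]
    simp only [mul_assoc]
  | inv x hx =>
    obtain ⟨E1, f1, s1, h1, n1, hn1, k1, e1⟩ := hx
    obtain ⟨D, hD1, hD2, hD3⟩ := shift g N n1⁻¹ (inv_mem (KK_le g N s1 hn1)) (-k1)
    have i1 : E1 ⊆ E1 ∪ D := Set.subset_union_left
    obtain ⟨hm, h3⟩ := hD3 (E1 ∪ D) Set.subset_union_right (inv_mem (KK_mono g i1 hn1))
    refine ⟨E1 ∪ D, f1.union hD1, Set.union_subset s1 hD2, h1.trans i1, _, hm, -k1, ?_⟩
    have e1' := congrArg (tr g i1) e1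
    rw [tr_tr, map_mul, map_zpow, tr_oo, tr_tt] at e1'
    rw [map_inv, e1', mul_inv_rev, oo_inv, ← zpow_neg, h3]

/-- the map to `G` -/
def gam (N : Subgroup G) [N.Normal] {E : Set G} (hE : E ⊆ N) :
    GE g E →* ↥(N ⊔ Subgroup.zpowers g) :=
  HNNExtension.lift (Subgroup.inclusion ((KK_le g N hE).trans le_sup_left))
    ⟨g, (le_sup_right : Subgroup.zpowers g ≤ _) (Subgroup.mem_zpowers g)⟩
    (fun a => by
      apply Subtype.ext
      change g * ((a : KK g E) : G) = g * ((a : KK g E) : G) * g⁻¹ * g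
      group)

theorem gam_oo (N : Subgroup G) [N.Normal] {E : Set G} (hE : E ⊆ N) {x : G} (hx : x ∈ KK g E) :
    ((gam g N hE (oo g E x hx) : ↥(N ⊔ Subgroup.zpowers g)) : G) = x :=
  congrArg Subtype.val (HNNExtension.lift_of (φ := phi g E) _ _ _ (⟨x, hx⟩ : KK g E))

theorem gam_tt (N : Subgroup G) [N.Normal] {E : Set G} (hE : E ⊆ N) :
    ((gam g N hE (tt g E) : ↥(N ⊔ Subgroup.zpowers g)) : G) = g :=
  congrArg Subtype.val (HNNExtension.lift_t (φ := phi g E) _ _ _)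

theorem gam_tr (N : Subgroup G) [N.Normal] {E E' : Set G} (hE : E ⊆ N) (hE' : E' ⊆ N)
    (h : E ⊆ E') (x : GE g E) : gam g N hE' (tr g h x) = gam g N hE x :=
  hom_ext' g (f := (gam g N hE').comp (tr g h)) (f' := gam g N hE)
    (fun x hx => by
      apply Subtype.ext
      rw [MonoidHom.comp_apply, tr_oo, gam_oo, gam_oo])
    (by
      apply Subtype.ext
      rw [MonoidHom.comp_apply, tr_tt, gam_tt, gam_tt]) x

theorem GE_mem (h : S_HNN) (C : ∀ (G : Type) [Group G], Prop) (hC : ClosedE C) (E : Set G)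
    (hR : Realized C g E) : C (GE g E) := by
  obtain ⟨P, _, f, p, hP, hf, hrel⟩ := hR
  have key : ∀ x ∈ Subgroup.closure E, ∀ (hx : x ∈ KK g E) (hy : g * x * g⁻¹ ∈ KK g E),
      f ⟨g * x * g⁻¹, hy⟩ = p * f ⟨x, hx⟩ * p⁻¹ := by
    intro x hx
    induction hx using Subgroup.closure_induction with
    | mem x hx =>
      intro h1 h2
      exact hrel ⟨x, h1⟩ ⟨_, h2⟩ hx rfl
    | one =>
      intro h1 h2
      have e1 : (⟨g * 1 * g⁻¹, h2⟩ : KK g E) = 1 := Subtype.ext (by simp)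
      have e2 : (⟨1, h1⟩ : KK g E) = 1 := rfl
      rw [e1, e2, map_one, mul_one, mul_inv_cancel]
    | mul x y hx hy ihx ihy =>
      intro h1 h2
      have m1 := cl_le_KK g E hx
      have m2 := cl_le_KK g E hy
      have m3 := cl_le_KK' g E (conj_mem g hx)
      have m4 := cl_le_KK' g E (conj_mem g hy)
      have e1 : (⟨g * (x * y) * g⁻¹, h2⟩ : KK g E) = ⟨g * x * g⁻¹, m3⟩ * ⟨g * y * g⁻¹, m4⟩ :=
        Subtype.ext (by
          change g * (x * y) * g⁻¹ = g * x * g⁻¹ * (g * y * g⁻¹)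
          group)
      have e2 : (⟨x * y, h1⟩ : KK g E) = ⟨x, m1⟩ * ⟨y, m2⟩ := rfl
      rw [e1, e2, map_mul, map_mul, ihx m1 m3, ihy m2 m4]
      group
    | inv x hx ihx =>
      intro h1 h2
      have m1 := cl_le_KK g E hx
      have m3 := cl_le_KK' g E (conj_mem g hx)
      have e1 : (⟨g * x⁻¹ * g⁻¹, h2⟩ : KK g E) = (⟨g * x * g⁻¹, m3⟩)⁻¹ :=
        Subtype.ext (by
          change g * x⁻¹ * g⁻¹ = (g * x * g⁻¹)⁻¹
          group)
      have e2 : (⟨x⁻¹, h1⟩ : KK g E) = (⟨x, m1⟩)⁻¹ := rfl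
      rw [e1, e2, map_inv, map_inv, ihx m1 m3]
      group
  have hx : ∀ a : AA g E, p * f ↑a = f (phi g E a : KK g E) * p := by
    intro a
    have h1 := key ((a : KK g E) : G) (Subgroup.mem_subgroupOf.1 a.2) a.1.2 (phi g E a).1.2
    have h2 : f (phi g E a : KK g E) = p * f ↑a * p⁻¹ := h1
    rw [h2]
    group
  refine h C hC (KK g E) P (AA g E) (BB g E) (phi g E) (HNNExtension.lift f p hx) ?_ hP
  have h3 : (HNNExtension.lift f p hx).comp HNNExtension.of = f := by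
    ext y
    exact HNNExtension.lift_of (φ := phi g E) f p hx y
  rw [h3]
  exact hf

end

theorem t_col (h : S_HNN) : S_COL := by
  intro C hC G _ N _ g hg hR
  have : Nonempty {E : Set G // E.Finite ∧ E ⊆ N} :=
    ⟨⟨∅, Set.finite_empty, Set.empty_subset _⟩⟩
  refine hC.base.colim {E : Set G // E.Finite ∧ E ⊆ N} ?_ (fun E => GE g E.1)
    (fun E E' hEE => tr g hEE) ↥(N ⊔ Subgroup.zpowers g) (fun E => gam g N E.2.2) ?_ ?_ ?_ ?_ ?_ ?_
  · rintro ⟨E, hE, hE'⟩ ⟨F, hF, hF'⟩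
    exact ⟨⟨E ∪ F, hE.union hF, Set.union_subset hE' hF'⟩, Set.subset_union_left,
      Set.subset_union_right⟩
  · intro E hE x
    exact tr_self g hE x
  · intro i j k h1 h2 x
    exact tr_tr g h1 h2 x
  · intro i j h1 x
    exact gam_tr g N i.2.2 j.2.2 h1 x
  · rintro ⟨y, hy⟩
    have h1 : y ∈ ((N ⊔ Subgroup.zpowers g : Subgroup G) : Set G) := hy
    rw [Subgroup.normal_mul] at h1
    obtain ⟨n, hn, z, hz, hnz⟩ := h1
    obtain ⟨k, rfl⟩ := Subgroup.mem_zpowers_iff.1 hz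
    refine ⟨⟨{n}, Set.finite_singleton n, Set.singleton_subset_iff.2 hn⟩,
      oo g {n} n (cl_le_KK g {n} (Subgroup.subset_closure rfl)) * tt g {n} ^ k, ?_⟩
    apply Subtype.ext
    rw [map_mul, map_zpow, Subgroup.coe_mul, Subgroup.coe_zpow, gam_oo, gam_tt]
    exact hnz
  · intro E x hx
    obtain ⟨E', f1, s1, h1, n, hn, k, e1⟩ := QQ_all g N E.1 E.2.1 E.2.2 x
    refine ⟨⟨E', f1, s1⟩, h1, ?_⟩
    have h2 := gam_tr g N E.2.2 s1 h1 x
    rw [hx, e1] at h2
    have h3 := congrArg Subtype.val h2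
    rw [map_mul, map_zpow, Subgroup.coe_mul, Subgroup.coe_zpow, gam_oo, gam_tt] at h3
    have h3' : n * g ^ k = 1 := h3
    have h4 : g ^ k ∈ N := by
      rw [eq_inv_of_mul_eq_one_right h3']
      exact inv_mem (KK_le g N s1 hn)
    have h5 : k = 0 := by
      by_contra hk
      have h6 : g ^ (k.natAbs) ∈ N := by
        rcases Int.natAbs_eq k with h | h
        · rw [h, zpow_natCast] at h4
          exact h4
        · rw [h, zpow_neg, zpow_natCast] at h4
          exact inv_mem_iff.1 h4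
      exact hg k.natAbs (Int.natAbs_pos.2 hk) h6
    subst h5
    rw [zpow_zero, mul_one] at h3' e1
    change tr g h1 x = 1
    rw [e1, oo_congr g h3' hn, oo_one]
  · intro E
    exact GE_mem g h C hC E.1 (hR E.1 E.2.1 E.2.2)

end Pool.Agent.Y497.FJ
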